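import Pool.Agent.Q108.TD.Conv

set_option autoImplicit false

/-!
Every graph of maximum degree at most `4` has an optimal tree-decomposition all of whose bags
induce subgraphs of treewidth at most `4`, and `4` is best possible.
-/

namespace Pool.Agent.Results.MP_888b70_co.MaxDegreeFour

open Finset Pool.Agent.Q108.TD

/-- `(T, B)` is a tree-decomposition of `G`: `T` is a tree, each edge of `G` has both ends in some
bag, and the nodes whose bags contain a given vertex induce a (nonempty) connected subgraph. -/
def IsTreeDecomposition {V X : Type} (G : SimpleGraph V) (T : SimpleGraph X) (B : X → Finset V) :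
    Prop :=
  T.IsTree ∧ (∀ u v, G.Adj u v → ∃ x, u ∈ B x ∧ v ∈ B x) ∧
    ∀ v, (T.induce {x | v ∈ B x}).Connected

/-- The width: the maximum size of a bag, minus one. -/
def width {V X : Type} [Fintype X] (B : X → Finset V) : ℤ :=
  ((univ.sup fun x => (B x).card : ℕ) : ℤ) - 1

/-- `tw(G) ≤ c`: some tree-decomposition of `G` (with a finite tree) has width at most `c`. -/
def TreewidthLe {V : Type} (G : SimpleGraph V) (c : ℤ) : Prop :=
  ∃ (X : Type) (_ : Fintype X) (T : SimpleGraph X) (B : X → Finset V),
    IsTreeDecomposition G T B ∧ width B ≤ c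

/-- The tree-decomposition `(T, B)` of `G` is optimal: it has the least width among all the
tree-decompositions of `G`. -/
def IsOptimal {V X : Type} [Fintype X] (G : SimpleGraph V) (T : SimpleGraph X)
    (B : X → Finset V) : Prop :=
  IsTreeDecomposition G T B ∧
    ∀ (X' : Type) [Fintype X'] (T' : SimpleGraph X') (B' : X' → Finset V),
      IsTreeDecomposition G T' B' → width B ≤ width B'

lemma treewidthLe_of_hasRD {V : Type} [DecidableEq V] (G : SimpleGraph V) (A : Finset V) (k : ℕ)
    (h : HasRD G A (k + 1)) : TreewidthLe (G.induce (A : Set V)) k := by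
  classical
  obtain ⟨X, i, par, rk, B, h1, h2⟩ := h
  refine ⟨X, i, parGraph par, fun x => (B x).subtype (fun a => a ∈ (A : Set V)), ?_, ?_⟩
  · exact h1.isTD (G.induce (A : Set V)) (fun w => w.1) (fun w => w.2)
      (fun a b hab => by rwa [SimpleGraph.induce_adj] at hab) _
      (fun x w => Finset.mem_subtype)
  · unfold width
    simp only
    have : (univ.sup fun x => ((B x).subtype (fun a => a ∈ (A : Set V))).card : ℕ) ≤ k + 1 := by
      refine Finset.sup_le ?_
      intro x _
      refine le_trans ?_ (h2 x)
      rw [Finset.card_subtype]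
      exact Finset.card_filter_le _ _
    omega

/-- Every graph `G` of maximum degree at most `4` has an optimal tree-decomposition such that
`tw(G[B]) ≤ 4` for every bag `B`. The constant `4` is best possible: there is a graph of maximum
degree at most `4` such that every tree-decomposition of it (optimal or not) has a bag `B` with
`tw(G[B]) > 3`. -/
theorem result :
    (∀ (V : Type) [Fintype V] [DecidableEq V] (G : SimpleGraph V) [DecidableRel G.Adj],
      (∀ v, G.degree v ≤ 4) →
      ∃ (X : Type) (_ : Fintype X) (T : SimpleGraph X) (B : X → Finset V),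
        IsOptimal G T B ∧ ∀ x, TreewidthLe (G.induce (B x : Set V)) 4) ∧
    (∃ (V : Type) (_ : Fintype V) (_ : DecidableEq V) (G : SimpleGraph V)
      (_ : DecidableRel G.Adj), (∀ v, G.degree v ≤ 4) ∧
      ∀ (X : Type) [Fintype X] (T : SimpleGraph X) (B : X → Finset V),
        IsTreeDecomposition G T B → ∃ x, ¬ TreewidthLe (G.induce (B x : Set V)) 3) := by
  classical
  constructor
  · intro V _ _ G _ hdeg
    have hex : ∃ k, HasRD G univ k := ⟨_, HasRD.single G univ _ le_rfl⟩
    obtain ⟨X, i, par, rk, B, hmin⟩ := (Nat.find_spec hex).exists_min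
    have htd : IsTreeDecomposition G (parGraph par) B :=
      hmin.rd.isTD G id (fun _ => Finset.mem_univ _) (fun a b h => h) B (fun x w => Iff.rfl)
    refine ⟨X, i, parGraph par, B, ⟨htd, ?_⟩, ?_⟩
    · intro X' _ T' B' h'
      obtain ⟨par', rk', hrd'⟩ := exists_RD (T := T') (B := B') h'
      have h1 : Nat.find hex ≤ univ.sup fun x => (B' x).card :=
        Nat.find_min' hex ⟨X', inferInstance, par', rk', B', hrd', fun x =>
          Finset.le_sup (f := fun x => (B' x).card) (Finset.mem_univ x)⟩
      have h2 : (univ.sup fun x => (B x).card) ≤ Nat.find hex :=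
        Finset.sup_le fun x _ => hmin.wid x
      unfold width
      omega
    · intro x
      refine treewidthLe_of_hasRD G (B x) 4 (hmin.bag4 ?_ x)
      intro v _
      refine le_trans (le_of_eq ?_) (hdeg v)
      rw [← SimpleGraph.card_neighborFinset_eq_degree]
      congr 1
      ext u
      simp
  · refine ⟨Fin 5, inferInstance, inferInstance, ⊤, inferInstance, ?_, ?_⟩
    · intro v
      have := (⊤ : SimpleGraph (Fin 5)).degree_lt_card_verts v
      rw [Fintype.card_fin] at this
      omega
    · intro X _ T B h
      obtain ⟨par, rk, hrd⟩ := exists_RD (T := T) (B := B) h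
      obtain ⟨x0, _⟩ := hrd.root
      obtain ⟨x, hx⟩ := hrd.clique (K := univ) (Finset.subset_univ _) (by
        intro u _ v _ huv
        exact huv) x0
      refine ⟨x, ?_⟩
      rintro ⟨X', i', T', B', h', hw⟩
      have : Fintype ↑((B x : Finset (Fin 5)) : Set (Fin 5)) := Fintype.ofFinite _
      obtain ⟨par', rk', hrd'⟩ := exists_RD (T := T') (B := B') h'
      obtain ⟨x0', _⟩ := hrd'.root
      obtain ⟨x', hx'⟩ := hrd'.clique (K := univ) (Finset.subset_univ _) (by
        intro u _ v _ huv
        rw [SimpleGraph.induce_adj]
        intro hh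
        exact huv (Subtype.ext hh)) x0'
      have h1 : (B' x').card ≤ univ.sup fun x => (B' x).card :=
        Finset.le_sup (f := fun x => (B' x).card) (Finset.mem_univ x')
      have h2 := Finset.card_le_card hx'
      have h3 : (univ : Finset ↑((B x : Finset (Fin 5)) : Set (Fin 5))).card = 5 := by
        rw [Finset.card_univ, ← Nat.card_eq_fintype_card]
        have hB : B x = univ := Finset.eq_univ_iff_forall.2 fun a => hx (Finset.mem_univ a)
        rw [hB]
        simp
      unfold width at hw
      omega

end Pool.Agent.Results.MP_888b70_co.MaxDegreeFour
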